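import Pool.Agent.H3.SF.Targets
import Pool.Agent.H14.SQ.ORD
import Pool.Agent.H65.SQ.MOM

/-!
# MP_634266_nt, row W6A (board spw): the mean of `UU`
-/

set_option autoImplicit false

namespace Pool.Agent.H79.SF.W6A

open Finset Filter Topology Pool.Agent.H99.SQ Pool.Agent.H3.SF MeasureTheory

open Classical in
/-- indicator of the exponents not killed -/
noncomputable def ind (p l a : ℕ) : ℝ := if Kill p a l then 0 else 1

theorem ind_per (p l a N : ℕ) (h : p ^ 2 ∣ N) : ind p l (a + N) = ind p l a := by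
  have e : ((a + N : ℕ) : ZMod (p ^ 2)) = (a : ZMod (p ^ 2)) := by
    rw [Nat.cast_add, (ZMod.natCast_eq_zero_iff N (p ^ 2)).2 h, add_zero]
  have e2 : Kill p (a + N) l ↔ Kill p a l := by
    unfold Kill
    rw [e]
  unfold ind
  by_cases h : Kill p a l
  · rw [if_pos h, if_pos (e2.2 h)]
  · rw [if_neg h, if_neg fun h' => h (e2.1 h')]

theorem ind_sum (p l : ℕ) (hp : p.Prime) :
    ∑ a ∈ range (p ^ 2), ind p l a = (p : ℝ) ^ 2 - 1 := by
  have hN : NeZero (p ^ 2) := ⟨pow_ne_zero _ hp.ne_zero⟩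
  have h1 : ∀ a ∈ range (p ^ 2), ind p l a =
      1 - if a = ((2 : ZMod (p ^ 2)) ^ l).val then (1 : ℝ) else 0 := by
    intro a ha
    rw [mem_range] at ha
    have e : Kill p a l ↔ a = ((2 : ZMod (p ^ 2)) ^ l).val := by
      unfold Kill
      constructor
      · intro h
        rw [← h, ZMod.val_cast_of_lt ha]
      · intro h
        rw [h, ZMod.natCast_zmod_val]
    unfold ind
    by_cases h : Kill p a l
    · rw [if_pos h, if_pos (e.1 h), sub_self]
    · rw [if_neg h, if_neg fun h' => h (e.2 h'), sub_zero]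
  rw [Finset.sum_congr rfl h1, Finset.sum_sub_distrib, Finset.sum_ite_eq', Finset.sum_const,
    card_range, if_pos (mem_range.2 (ZMod.val_lt _)), nsmul_eq_mul]
  push_cast
  ring

theorem prodsum (F : Finset ℕ) (l : ℕ) (hF : ∀ p ∈ F, p.Prime) :
    ∑ a ∈ range (QQ F), ∏ p ∈ F, ind p l a = ∏ p ∈ F, ((p : ℝ) ^ 2 - 1) := by
  classical
  induction F using Finset.induction_on with
  | empty => simp [QQ]
  | insert p F hp ih =>
    have hpp : p.Prime := hF p (mem_insert_self p F)
    have hF' : ∀ q ∈ F, q.Prime := fun q hq => hF q (mem_insert_of_mem hq)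
    have e1 : QQ (insert p F) = QQ F * p ^ 2 := by
      unfold QQ
      rw [Finset.prod_insert hp, mul_comm]
    have hQ : 0 < QQ F := Finset.prod_pos fun q hq => pow_pos (hF' q hq).pos 2
    have hcop : Nat.Coprime (QQ F) (p ^ 2) := by
      unfold QQ
      refine Nat.Coprime.prod_left fun q hq => ?_
      refine Nat.Coprime.pow 2 2 ((Nat.coprime_primes (hF' q hq) hpp).2 ?_)
      rintro rfl
      exact hp hq
    have h := Pool.Agent.H65.SQ.pf_CRT (QQ F) (p ^ 2) (fun a => ∏ q ∈ F, ind q l a)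
      (fun a => ind p l a) hQ (pow_pos hpp.pos 2) hcop
      (fun n => Finset.prod_congr rfl fun q hq =>
        ind_per q l n (QQ F) (Finset.dvd_prod_of_mem (fun q => q ^ 2) hq))
      (fun n => ind_per p l n (p ^ 2) dvd_rfl)
    rw [e1, Finset.prod_insert hp]
    have e2 : ∀ a, ∏ q ∈ insert p F, ind q l a = (∏ q ∈ F, ind q l a) * ind p l a := by
      intro a
      rw [Finset.prod_insert hp, mul_comm]
    rw [Finset.sum_congr rfl fun a _ => e2 a, h, ih hF', ind_sum p l hpp, mul_comm]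

theorem uc_eq (F : Finset ℕ) (n N : ℕ) :
    (UC F n N : ℝ) = ∑ l ∈ range N, ∏ p ∈ F, ind p l n := by
  classical
  unfold UC
  rw [Finset.card_filter, Nat.cast_sum]
  refine Finset.sum_congr rfl fun l _ => ?_
  by_cases h : ∀ p ∈ F, ¬ Kill p n l
  · rw [if_pos h, Nat.cast_one]
    symm
    refine Finset.prod_eq_one fun p hp => ?_
    unfold ind
    rw [if_neg (h p hp)]
  · rw [if_neg h, Nat.cast_zero]
    push Not at h
    obtain ⟨p, hp, hk⟩ := h
    symm
    refine Finset.prod_eq_zero hp ?_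
    unfold ind
    rw [if_pos hk]

theorem mean (F : Finset ℕ) (hF : ∀ p ∈ F, OP p) :
    (∑ a ∈ range (QQ F), UU F a) / QQ F = ∏ p ∈ F, (1 - 1 / (p : ℝ) ^ 2) := by
  have hM : (0 : ℝ) < MP F := by
    have : 0 < MP F := Finset.prod_pos fun p hp => (Pool.Agent.H14.SQ.pf_ORD p (hF p hp)).1
    exact_mod_cast this
  have e1 : ∑ a ∈ range (QQ F), UU F a = ∏ p ∈ F, ((p : ℝ) ^ 2 - 1) := by
    have e2 : ∀ a, UU F a = (∑ l ∈ range (MP F), ∏ p ∈ F, ind p l a) / MP F := by
      intro a
      unfold UU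
      rw [uc_eq]
    rw [Finset.sum_congr rfl fun a _ => e2 a, ← Finset.sum_div, Finset.sum_comm,
      Finset.sum_congr rfl fun l _ => prodsum F l fun p hp => (hF p hp).1, Finset.sum_const,
      card_range, nsmul_eq_mul]
    field_simp
  rw [e1]
  have e3 : ((QQ F : ℕ) : ℝ) = ∏ p ∈ F, (p : ℝ) ^ 2 := by
    unfold QQ
    push_cast
    rfl
  rw [e3, ← Finset.prod_div_distrib]
  refine Finset.prod_congr rfl fun p hp => ?_
  have hp0 : (p : ℝ) ≠ 0 := by
    have := (hF p hp).1.ne_zero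
    exact_mod_cast this
  field_simp

theorem pf_W6A : T_W6A := fun Y => mean (FF Y) fun _ hp => (Finset.mem_filter.1 hp).2

end Pool.Agent.H79.SF.W6A
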