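import Pool.Agent.H3.SF.Targets
import Pool.Agent.H14.SQ.ORD

/-!
# MP_634266_nt, row W7 (board spw): the mass at zero
-/

set_option autoImplicit false

namespace Pool.Agent.H79.SF

open Finset Filter Topology Pool.Agent.H99.SQ Pool.Agent.H3.SF MeasureTheory

theorem isProb : IsProbabilityMeasure PM := by
  have h : ∀ p : Ix, IsProbabilityMeasure
      (ProbabilityTheory.uniformOn (Set.univ : Set (ZMod ((p : ℕ) ^ 2)))) := by
    intro p
    have : NeZero ((p : ℕ) ^ 2) := ⟨pow_ne_zero _ p.2.1.ne_zero⟩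
    exact ProbabilityTheory.uniformOn_isProbabilityMeasure (Set.toFinite _) Set.univ_nonempty
  unfold PM
  infer_instance

theorem ff_op {Y p : ℕ} (hp : p ∈ FF Y) : OP p := (Finset.mem_filter.1 hp).2

theorem int_set (S : Set Om) (hS : MeasurableSet S) (g : Om → ℝ)
    (hg : ∀ ω, g ω = S.indicator 1 ω) : ∫ ω, g ω ∂PM = (PM S).toReal := by
  have h1 : ∫ ω, g ω ∂PM = ∫ ω, S.indicator 1 ω ∂PM := integral_congr_ae
    (Eventually.of_forall hg)
  rw [h1, integral_indicator_one hS]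
  rfl

open Classical in
theorem mass_cov (hUUF : T_UUF) (hW2 : T_W2) (hW4 : T_W4) (Y : ℕ) :
    (({a : ℕ | a < QQ (FF Y) ∧ Cov (FF Y) a}.ncard : ℝ)) / QQ (FF Y) =
      (PM {ω | dY Y ω = 0}).toReal := by
  have h1 := hW2 Y Y (fun _ b => if b = 0 then 1 else 0) le_rfl
  have hS : MeasurableSet {ω | dY Y ω = 0} := (hW4.1 Y) (measurableSet_singleton 0)
  rw [int_set {ω | dY Y ω = 0} hS _ (fun ω => by
    by_cases h : dY Y ω = 0
    · rw [Set.indicator_of_mem (show ω ∈ {ω | dY Y ω = 0} from h)]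
      simp [h]
    · rw [Set.indicator_of_notMem (show ω ∉ {ω | dY Y ω = 0} from h)]
      simp [h])] at h1
  rw [h1, Finset.sum_boole]
  congr 2
  have e : {a : ℕ | a < QQ (FF Y) ∧ Cov (FF Y) a} =
      (((range (QQ (FF Y))).filter fun a => UU (FF Y) a = 0 : Finset ℕ) : Set ℕ) := by
    ext a
    rw [Finset.coe_filter]
    constructor
    · rintro ⟨h2, h3⟩
      exact ⟨Finset.mem_range.2 h2, (hUUF (FF Y) a fun p hp => ff_op hp).2.2.2.2 h3⟩
    · rintro ⟨h2, h3⟩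
      exact ⟨Finset.mem_range.1 h2, (hUUF (FF Y) a fun p hp => ff_op hp).2.2.2.1 h3⟩
  rw [e, Set.ncard_coe_finset]

open Classical in
theorem mass_small (hUUF : T_UUF) (hW2 : T_W2) (hW4 : T_W4) (hZC : T_ZC) (Y Y' : ℕ) (hY : 1 ≤ Y)
    (hYY : Y ≤ Y') :
    (PM {ω | dY Y ω ≠ 0 ∧ dY Y' ω < 1 / (2 * MP (FF Y))}).toReal ≤ 2 / Y := by
  have h1 := hW2 Y Y' (fun a b => if a ≠ 0 ∧ b < 1 / (2 * MP (FF Y)) then 1 else 0) hYY
  have hS : MeasurableSet {ω | dY Y ω ≠ 0 ∧ dY Y' ω < 1 / (2 * MP (FF Y))} := by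
    refine MeasurableSet.inter ?_ ?_
    · exact ((hW4.1 Y) (measurableSet_singleton 0)).compl
    · exact measurableSet_lt (hW4.1 Y') measurable_const
  rw [int_set _ hS _ (fun ω => by
    by_cases h : dY Y ω ≠ 0 ∧ dY Y' ω < 1 / (2 * MP (FF Y))
    · rw [Set.indicator_of_mem
        (show ω ∈ {ω | dY Y ω ≠ 0 ∧ dY Y' ω < 1 / (2 * MP (FF Y))} from h), if_pos h]
      rfl
    · rw [Set.indicator_of_notMem
        (show ω ∉ {ω | dY Y ω ≠ 0 ∧ dY Y' ω < 1 / (2 * MP (FF Y))} from h), if_neg h])] at h1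
  rw [h1, Finset.sum_boole]
  have hQ : (0 : ℝ) < QQ (FF Y') := by
    have : 0 < QQ (FF Y') := Finset.prod_pos fun p hp => pow_pos (ff_op hp).1.pos 2
    exact_mod_cast this
  rw [div_le_iff₀ hQ]
  refine hZC Y Y' _ hY hYY fun a ha => ?_
  rw [Finset.mem_filter, Finset.mem_range] at ha
  refine ⟨ha.1, fun hc => ha.2.1 ?_, ha.2.2⟩
  exact (hUUF (FF Y) a fun p hp => ff_op hp).2.2.2.2 hc

theorem pf_W7 (hUUF : T_UUF) (hW2 : T_W2) (hW4 : T_W4) (hZC : T_ZC) : T_W7 := by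
  have hP := isProb
  have hW4' := hW4
  obtain ⟨hm, hmD, hanti, h01, htend, -⟩ := hW4
  have hDle : ∀ Y ω, Dd ω ≤ dY Y ω := fun Y ω => (hanti ω).le_of_tendsto (htend ω) Y
  have hD0 : ∀ ω, 0 ≤ Dd ω := fun ω => ge_of_tendsto' (htend ω) fun Y => (h01 Y ω).1
  have key : ∀ Y : ℕ, 1 ≤ Y → dist ((({a : ℕ | a < QQ (FF Y) ∧ Cov (FF Y) a}.ncard : ℝ)) /
      QQ (FF Y)) (PM {ω | Dd ω = 0}).toReal ≤ 2 / Y := by
    intro Y hY
    rw [mass_cov hUUF hW2 hW4' Y]
    have hM : (0 : ℝ) < MP (FF Y) := by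
      have : 0 < MP (FF Y) := Finset.prod_pos fun p hp => (Pool.Agent.H14.SQ.pf_ORD p (ff_op hp)).1
      exact_mod_cast this
    have hsub : {ω | dY Y ω = 0} ⊆ {ω | Dd ω = 0} := by
      intro ω hω
      have h1 : dY Y ω = 0 := hω
      exact le_antisymm (h1 ▸ hDle Y ω) (hD0 ω)
    let S : ℕ → Set Om := fun k => {ω | dY Y ω ≠ 0 ∧ dY (Y + k) ω < 1 / (2 * MP (FF Y))}
    have hSm : Monotone S := by
      intro k k' hk ω hω
      exact ⟨hω.1, lt_of_le_of_lt (hanti ω (Nat.add_le_add_left hk Y)) hω.2⟩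
    have hSU : {ω | Dd ω = 0} ⊆ {ω | dY Y ω = 0} ∪ ⋃ k, S k := by
      intro ω hω
      by_cases h : dY Y ω = 0
      · exact Or.inl h
      · right
        have h1 : Dd ω < 1 / (2 * MP (FF Y)) := by
          have h2 : Dd ω = 0 := hω
          rw [h2]
          positivity
        obtain ⟨N, hN⟩ := eventually_atTop.1 ((htend ω).eventually_lt_const h1)
        exact Set.mem_iUnion.2 ⟨N, h, hN (Y + N) (Nat.le_add_left N Y)⟩
    have hU : PM (⋃ k, S k) ≤ ENNReal.ofReal (2 / Y) := by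
      refine le_of_tendsto' (tendsto_measure_iUnion_atTop hSm) fun k => ?_
      change PM (S k) ≤ _
      rw [ENNReal.le_ofReal_iff_toReal_le (measure_ne_top _ _) (by positivity)]
      exact mass_small hUUF hW2 hW4' hZC Y (Y + k) hY
        (Nat.le_add_right Y k)
    have h1 : (PM {ω | dY Y ω = 0}).toReal ≤ (PM {ω | Dd ω = 0}).toReal :=
      ENNReal.toReal_mono (measure_ne_top _ _) (measure_mono hsub)
    have h2 : (PM {ω | Dd ω = 0}).toReal ≤ (PM {ω | dY Y ω = 0}).toReal + 2 / Y := by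
      have h3 : PM {ω | Dd ω = 0} ≤ PM {ω | dY Y ω = 0} + ENNReal.ofReal (2 / Y) :=
        (measure_mono hSU).trans ((measure_union_le _ _).trans (add_le_add le_rfl hU))
      have h4 := ENNReal.toReal_mono (by finiteness) h3
      rwa [ENNReal.toReal_add (measure_ne_top _ _) ENNReal.ofReal_ne_top,
        ENNReal.toReal_ofReal (by positivity)] at h4
    rw [Real.dist_eq, abs_le]
    constructor <;> linarith [show (0 : ℝ) ≤ 2 / Y by positivity]
  unfold T_W7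
  rw [tendsto_iff_dist_tendsto_zero]
  refine squeeze_zero' (Eventually.of_forall fun Y => dist_nonneg) ?_
    (tendsto_const_div_atTop_nhds_zero_nat 2)
  filter_upwards [eventually_ge_atTop 1] with Y hY
  exact key Y hY

end Pool.Agent.H79.SF
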